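import Mathlib

/-! Omega-values of the generators of an interval-generated numerical monoid. -/

namespace Pool.Agent.Results.MP_d5f0e7_al.Formula

open Finset

/-- The monoid generated by `n, n + 1, ..., n + k`. -/
def Gam (n k : ℕ) : AddSubmonoid ℕ := AddSubmonoid.closure (Set.Icc n (n + k))

/-- `x` divides `y` in the monoid `G`. -/
def Dv (G : AddSubmonoid ℕ) (x y : ℕ) : Prop := ∃ z ∈ G, y = x + z

/-- `m` has the defining property of the omega-value of `x`. -/
def OmLE (G : AddSubmonoid ℕ) (x m : ℕ) : Prop :=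
  ∀ (r : ℕ) (a : ℕ → ℕ), (∀ j < r, a j ∈ G) → Dv G x (∑ j ∈ range r, a j) →
    ∃ T ⊆ range r, T.card ≤ m ∧ Dv G x (∑ j ∈ T, a j)

/-- The formula. -/
def om (n k i : ℕ) : ℕ :=
  if (n - 2) % k = 0 then
    if i = 0 then (if (n - 2) / k + 1 ∣ k - 1 then (n - 2) / k + 2 else (n - 2) / k + 1)
    else (if (n - 2) / k + 2 ∣ i - 1 then (n - 2) / k + 3 else (n - 2) / k + 2)
  else if i = 0 then (n - 2) / k + 2 else (n - 2) / k + 3

lemma mem_Gam {n k y : ℕ} : y ∈ Gam n k ↔ ∃ q, q * n ≤ y ∧ y ≤ q * (n + k) := by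
  constructor
  · intro h
    induction h using AddSubmonoid.closure_induction with
    | mem x hx => exact ⟨1, by simpa using hx⟩
    | zero => exact ⟨0, by simp⟩
    | add x y _ _ h1 h2 =>
      obtain ⟨p, h1, h1'⟩ := h1
      obtain ⟨q, h2, h2'⟩ := h2
      exact ⟨p + q, by rw [add_mul]; omega, by rw [add_mul]; omega⟩
  · rintro ⟨q, h1, h2⟩
    induction q generalizing y with
    | zero => obtain rfl : y = 0 := by omega
              exact zero_mem _
    | succ q ih =>
      rw [add_mul, one_mul] at h1 h2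
      have hq : q * n ≤ q * (n + k) := Nat.mul_le_mul_left _ (by omega)
      by_cases h : y - n ≤ q * (n + k)
      · rw [show y = n + (y - n) by omega]
        exact add_mem (AddSubmonoid.subset_closure ⟨le_rfl, by omega⟩) (ih (by omega) h)
      · rw [show y = (y - q * (n + k)) + q * (n + k) by omega]
        exact add_mem (AddSubmonoid.subset_closure ⟨by omega, by omega⟩) (ih hq le_rfl)

lemma gap {n k q y : ℕ} (h1 : q * (n + k) < y) (h2 : y < (q + 1) * n) : y ∉ Gam n k := by
  rw [mem_Gam]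
  rintro ⟨p, h3, h4⟩
  rcases le_or_gt p q with h | h
  · have := Nat.mul_le_mul_right (n + k) h
    omega
  · have := Nat.mul_le_mul_right n (show q + 1 ≤ p from h)
    omega

lemma big {n k Q y : ℕ} (hn : 0 < n) (h : n ≤ (Q + 1) * k + 1) (hy : (Q + 1) * n ≤ y) :
    y ∈ Gam n k := by
  refine mem_Gam.2 ⟨y / n, Nat.div_mul_le_self _ _, ?_⟩
  have h1 : Q + 1 ≤ y / n := (Nat.le_div_iff_mul_le hn).2 hy
  have h2 := Nat.mul_le_mul_right k h1
  have h3 := Nat.div_add_mod y n
  have h4 := Nat.mod_lt y hn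
  rw [mul_add, mul_comm (y / n) n]
  omega

lemma atom {n k j : ℕ} (h : j ≤ k) : n + j ∈ Gam n k :=
  AddSubmonoid.subset_closure ⟨by omega, by omega⟩

lemma lower {n k x m j t : ℕ} (ht : t ≤ m) (hj : j ≤ k) (hj' : 0 < t → j + 1 ≤ k)
    (h0 : Dv (Gam n k) x (m * (n + j) + t))
    (h1 : ∀ y, m * (n + j) + t = x + y + (n + j) → y ∉ Gam n k)
    (h2 : 0 < t → ∀ y, m * (n + j) + t = x + y + (n + j + 1) → y ∉ Gam n k) {c : ℕ}
    (hc : OmLE (Gam n k) x c) : m ≤ c := by
  let a : ℕ → ℕ := fun l => n + j + if l < t then 1 else 0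
  have ha : ∀ l, a l ∈ Gam n k := fun l => by
    simp only [a]
    split_ifs with h
    · exact atom (j := j + 1) (hj' (by omega))
    · exact atom hj
  have hs : ∑ l ∈ range m, a l = m * (n + j) + t := by
    simp only [a]
    rw [sum_add_distrib, sum_const, card_range, smul_eq_mul, ← card_filter]
    congr 1
    have : filter (fun l => l < t) (range m) = range t := by
      ext l
      simp only [mem_filter, mem_range]
      omega
    rw [this, card_range]
  obtain ⟨T, hT, hcard, z, hz, e⟩ := hc m a (fun l _ => ha l) (hs ▸ h0)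
  by_contra hlt
  obtain ⟨l, hl, hl'⟩ := exists_mem_notMem_of_card_lt_card (s := T) (t := range m)
    (by rw [card_range]; omega)
  have sub : insert l T ⊆ range m := insert_subset hl hT
  have e2 := sum_sdiff (f := a) sub
  rw [sum_insert hl', hs, e] at e2
  have hy : z + ∑ x ∈ range m \ insert l T, a x ∈ Gam n k :=
    add_mem hz (sum_mem fun x _ => ha x)
  by_cases h : l < t
  · refine h2 (by omega) _ ?_ hy
    simp only [a, if_pos h] at e2 ⊢
    omega
  · refine h1 _ ?_ hy
    simp only [a, if_neg h] at e2 ⊢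
    omega

lemma upper {n k x c : ℕ}
    (h : ∀ (m s : ℕ) (T : Finset ℕ) (a : ℕ → ℕ), T.card = m + 1 → c ≤ m → ∑ j ∈ T, a j = s →
      (∀ j ∈ T, m * n + a j ≤ s) → ∃ j ∈ T, Dv (Gam n k) x (s - a j)) :
    OmLE (Gam n k) x c := by
  intro r a ha
  suffices H : ∀ T ⊆ range r, Dv (Gam n k) x (∑ j ∈ T, a j) →
      ∃ T' ⊆ range r, T'.card ≤ c ∧ Dv (Gam n k) x (∑ j ∈ T', a j) from H _ subset_rfl
  intro T
  induction T using Finset.strongInduction with
  | H T ih =>
    intro hT hd
    by_cases hc : T.card ≤ c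
    · exact ⟨T, hT, hc, hd⟩
    have red : ∀ j ∈ T, Dv (Gam n k) x (∑ j ∈ T, a j - a j) →
        ∃ T' ⊆ range r, T'.card ≤ c ∧ Dv (Gam n k) x (∑ j ∈ T', a j) := by
      intro j hj hd'
      refine ih (T.erase j) (erase_ssubset hj) ((erase_subset _ _).trans hT) ?_
      rw [← add_sum_erase T a hj, Nat.add_sub_cancel_left] at hd'
      exact hd'
    by_cases h0 : ∃ j ∈ T, a j = 0
    · obtain ⟨j, hj, e⟩ := h0
      exact red j hj (by rw [e]; exact hd)
    have ge : ∀ j ∈ T, n ≤ a j := by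
      intro j hj
      obtain ⟨q, h1, h2⟩ := mem_Gam.1 (ha j (mem_range.1 (hT hj)))
      rcases q with _ | q
      · exact absurd ⟨j, hj, by omega⟩ h0
      · rw [add_mul] at h1; omega
    obtain ⟨j, hj, hd'⟩ := h (T.card - 1) _ T a (by omega) (by omega) rfl fun j hj => by
      have : (T.card - 1) * n ≤ ∑ x ∈ T.erase j, a x := by
        have := card_nsmul_le_sum (T.erase j) a n fun l hl => ge l (mem_of_mem_erase hl)
        rwa [card_erase_of_mem hj, smul_eq_mul] at this
      rw [← add_sum_erase T a hj]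
      omega
    exact red j hj hd'

lemma up_big {n k Q x c : ℕ} (hn : 0 < n) (h : n ≤ (Q + 1) * k + 1)
    (hc : x + (Q + 1) * n ≤ c * n) : OmLE (Gam n k) x c := by
  refine upper fun m s T a hT hm _ ha => ?_
  obtain ⟨j, hj⟩ := card_pos.1 (show 0 < T.card by omega)
  have := ha j hj
  have := Nat.mul_le_mul_right n hm
  exact ⟨j, hj, s - a j - x, big hn h (by omega), by omega⟩

lemma up_fine {n k Q x c : ℕ} (hk : 0 < k) (h : n = Q * k + 2)
    (hc : x + Q * n ≤ c * n) (hc' : x + (Q + 1) * n ≤ (c + 1) * n)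
    (hd : ∀ u, c * u + 1 ≠ x + (Q + 1) * n) : OmLE (Gam n k) x c := by
  have hb : n ≤ (Q + 1) * k + 1 := by rw [add_mul]; omega
  refine upper fun m s T a hT hm hs ha => ?_
  obtain ⟨j, hj⟩ := card_pos.1 (show 0 < T.card by omega)
  rcases hm.eq_or_lt with rfl | hm
  · by_contra hcon
    push Not at hcon
    have key : ∀ l ∈ T, a l + x + (Q + 1) * n = s + 1 := by
      intro l hl
      have h1 := ha l hl
      have h2 : s - a l - x ∉ Gam n k := fun hy => hcon l hl ⟨_, hy, by omega⟩
      have h3 : ¬ (Q + 1) * n ≤ s - a l - x := fun hy => h2 (big (by omega) hb hy)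
      have h4 : ¬ s - a l - x ≤ Q * (n + k) := fun hy => h2 (mem_Gam.2 ⟨Q, by omega, hy⟩)
      rw [mul_add] at h4
      rw [add_mul] at h3 ⊢
      omega
    have e : s = (c + 1) * a j := by
      rw [← hs, ← hT, ← smul_eq_mul, ← sum_const]
      exact sum_congr rfl fun l hl => by have := key l hl; have := key j hj; omega
    have := key j hj
    rw [add_mul] at e
    exact hd (a j) (by omega)
  · have := ha j hj
    have := Nat.mul_le_mul_right n (show c + 1 ≤ m from hm)
    exact ⟨j, hj, s - a j - x, big (by omega) hb (by omega), by omega⟩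

lemma low_top {n k Q i m j t : ℕ} (h1 : Q * k + 2 ≤ n) (h2 : n ≤ (Q + 1) * k + 1) (ht : t ≤ m + 1)
    (hj : j ≤ k) (hj' : 0 < t → j + 1 ≤ k ∧ Q * k + 3 ≤ n)
    (e : m * (n + j) + t + 1 = (Q + 2) * n + i) {c : ℕ} (hc : OmLE (Gam n k) (n + i) c) :
    m + 1 ≤ c := by
  have e1 : (m + 1) * (n + j) = m * (n + j) + (n + j) := by ring
  have e2 : (Q + 2) * n = (Q + 1) * n + n := by ring
  have e3 : (Q + 1) * n = Q * n + n := by ring
  have e4 : Q * (n + k) = Q * n + Q * k := by ring
  refine lower ht hj (fun h => (hj' h).1) ⟨(Q + 2) * n + j - 1, big (by omega) h2 (by omega),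
    by omega⟩ (fun y hy => gap (q := Q) (by omega) (by omega))
    (fun h y hy => gap (q := Q) (by have := (hj' h).2; omega) (by omega)) hc

theorem result (n k i : ℕ) (hk : 1 ≤ k) (hkn : k + 1 ≤ n) (hi : i ≤ k) :
    IsLeast {m | OmLE (Gam n k) (n + i) m} (om n k i) := by
  obtain ⟨Q, hQ⟩ : ∃ Q, Q = (n - 2) / k := ⟨_, rfl⟩
  obtain ⟨r, hr⟩ : ∃ r, r = (n - 2) % k := ⟨_, rfl⟩
  have hd : k * Q + r = n - 2 := by rw [hQ, hr]; exact Nat.div_add_mod _ _
  have hr' : r < k := hr ▸ Nat.mod_lt _ hk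
  rw [mul_comm] at hd
  have e0 : (Q + 1) * k = Q * k + k := by ring
  have e1 : (Q + 1) * n = Q * n + n := by ring
  have e2 : (Q + 2) * n = Q * n + 2 * n := by ring
  have e3 : (Q + 3) * n = Q * n + 3 * n := by ring
  have e2' : (Q + 1 + 1) * n = Q * n + 2 * n := by ring
  have e3' : (Q + 2 + 1) * n = Q * n + 3 * n := by ring
  have h1 : Q * k + 2 ≤ n := by omega
  have h2 : n ≤ (Q + 1) * k + 1 := by omega
  have A : i = 0 → (r = 0 → Q + 1 ∣ k - 1) → IsLeast {m | OmLE (Gam n k) (n + i) m} (Q + 2) := by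
    rintro rfl hdv
    refine ⟨up_big (by omega) h2 (by omega), fun c hc => ?_⟩
    have d1 := Nat.div_add_mod (n - 1) (Q + 1)
    have d2 := Nat.mod_lt (n - 1) (show 0 < Q + 1 by omega)
    have d3 : (n - 1) / (Q + 1) ≤ k := Nat.div_le_of_le_mul (by omega)
    refine low_top (m := Q + 1) (j := (n - 1) / (Q + 1)) (t := (n - 1) % (Q + 1)) h1 h2
      (by omega) d3 (fun h => ⟨?_, ?_⟩) (by rw [mul_add]; omega) hc
    · by_contra hh
      have : (n - 1) / (Q + 1) = k := by omega
      rw [this] at d1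
      omega
    · by_contra hh
      obtain ⟨w, hw⟩ := hdv (by omega)
      have : n - 1 + (Q + 1) * w = (Q + 1) * k := by omega
      have : Q + 1 ∣ n - 1 := (Nat.dvd_add_left (dvd_mul_right _ w)).1 (this ▸ dvd_mul_right _ _)
      have := Nat.mod_eq_zero_of_dvd this
      omega
  have B : i ≠ 0 → (r = 0 → Q + 2 ∣ i - 1) → IsLeast {m | OmLE (Gam n k) (n + i) m} (Q + 3) := by
    intro h0 hdv
    refine ⟨up_big (by omega) h2 (by omega), fun c hc => ?_⟩
    have d1 := Nat.div_add_mod (i - 1) (Q + 2)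
    have d2 := Nat.mod_lt (i - 1) (show 0 < Q + 2 by omega)
    have d3 : (i - 1) / (Q + 2) ≤ i - 1 := Nat.div_le_self _ _
    refine low_top (m := Q + 2) (j := (i - 1) / (Q + 2)) (t := (i - 1) % (Q + 2)) h1 h2
      (by omega) (by omega) (fun h => ⟨by omega, ?_⟩) (by rw [mul_add]; omega) hc
    by_contra hh
    have := Nat.mod_eq_zero_of_dvd (hdv (by omega))
    omega
  unfold om
  rw [← hQ, ← hr]
  split_ifs with c1 c2 c3 c4 c5
  · exact A c2 fun _ => c3
  · subst c2
    have k2 : 2 ≤ k := by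
      by_contra hh
      exact c3 (by rw [show k - 1 = 0 by omega]; exact dvd_zero _)
    refine ⟨up_fine (Q := Q) hk (by omega) (by omega) (by omega) fun u hu => c3 ?_, fun c hc => ?_⟩
    · have e5 : (Q + 1) * (n + k) = (Q + 1) * n + (Q + 1) * k := by ring
      have : (Q + 1) * u + (k - 1) = (Q + 1) * (n + k) := by omega
      exact (Nat.dvd_add_right (dvd_mul_right _ u)).1 (this ▸ dvd_mul_right _ _)
    · have e5 : (Q + 1) * (n + k) = (Q + 1) * n + (Q + 1) * k := by ring
      refine lower (j := k) (t := 0) (Nat.zero_le _) le_rfl (by omega)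
        ⟨Q * n + (Q + 1) * k, big (by omega) h2 (by omega), by omega⟩ (fun y hy => ?_)
        (by omega) hc
      rcases Q with _ | Q
      · omega
      · have e6 : (Q + 1) * n = Q * n + n := by ring
        have e7 : (Q + 1) * k = Q * k + k := by ring
        exact gap (q := Q) (by rw [mul_add]; omega) (by omega)
  · exact B c2 fun _ => c4
  · have i2 : 2 ≤ i := by
      by_contra hh
      exact c4 (by rw [show i - 1 = 0 by omega]; exact dvd_zero _)
    refine ⟨up_fine (Q := Q) hk (by omega) (by omega) (by omega) fun u hu => c4 ?_, fun c hc => ?_⟩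
    · have : (Q + 2) * u = (Q + 2) * n + (i - 1) := by omega
      exact (Nat.dvd_add_right (dvd_mul_right _ n)).1 (this ▸ dvd_mul_right _ _)
    · refine lower (j := 0) (t := 0) (Nat.zero_le _) (Nat.zero_le _) (by omega)
        ⟨Q * n + n - i, mem_Gam.2 ⟨Q, by omega, by rw [mul_add]; omega⟩, by
          rw [add_zero n]; omega⟩ (fun y hy => ?_) (by omega) hc
      rw [add_zero n] at hy
      rcases Q with _ | Q
      · omega
      · have e6 : (Q + 1) * n = Q * n + n := by ring
        have e7 : (Q + 1) * k = Q * k + k := by ring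
        exact gap (q := Q) (by rw [mul_add]; omega) (by omega)
  · exact A c5 fun h => absurd h c1
  · exact B c5 fun h => absurd h c1

end Pool.Agent.Results.MP_d5f0e7_al.Formula
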